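import Pool.Agent.Lib.MP_d7e141_nt.Grow3

/-!
# MP_d7e141_nt, Q1 for pairs with `n' ∣ Φ_d(b)`, `d` fixed

`Out b n`, `F b n`, `Admissible b n`, `core b n` (the largest divisor `n'` of `n` coprime to `b`) are
defined in `Pool.Agent.Lib.MP_d7e141_nt.Defs`; `FrobeniusNumber g s` is Mathlib's: `g` is the largest
natural number that is not a sum of elements of `s`.
-/

namespace Pool.Agent.Results.MP_d7e141_nt.CyclotomicNumbers

open Pool.Agent.MPd7e141 Polynomial

theorem result :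
    -- the numbers used in the statement are what they should be
    (∀ b n : ℕ, Admissible b n →
      IsGreatest {u : ℕ | 0 < u ∧ u ∉ Out b n} (F b n) ∧
      IsGreatest {m : ℕ | m ∣ n ∧ Nat.Coprime b m} (core b n)) ∧
    -- `d` with at least two prime factors
    (∀ d : ℕ, 2 ≤ d.primeFactors.card →
      ∃ g : ℕ, FrobeniusNumber g (d.primeFactors : Set ℕ) ∧
        (∀ b n : ℕ, Admissible b n → (core b n : ℤ) ∣ (cyclotomic d ℤ).eval (b : ℤ) →
          F b n ≤ g ∧ (g ^ Nat.totient d < core b n → F b n = g)) ∧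
        (∀ b n : ℕ, 2 ≤ b → g < b → (n : ℤ) = (cyclotomic d ℤ).eval (b : ℤ) →
          Admissible b n ∧ F b n = g)) ∧
    -- `d = q ^ (k + 1)`, `q` prime
    (∀ q k : ℕ, q.Prime →
      (∃ C : ℝ, ∀ b n : ℕ, Admissible b n →
        (core b n : ℤ) ∣ (cyclotomic (q ^ (k + 1)) ℤ).eval (b : ℤ) →
          (core b n : ℝ) ^ (1 / (Nat.totient (q ^ (k + 1)) : ℝ)) - 2 ≤ F b n ∧
          F b n ≤ C * (core b n : ℝ) ^ (1 / (Nat.totient (q ^ (k + 1)) : ℝ))) ∧
      (∀ b n : ℕ, 2 ≤ b → (n : ℤ) = (cyclotomic (q ^ (k + 1)) ℤ).eval (b : ℤ) →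
        (¬ q ∣ b - 1 → Admissible b n ∧ F b n = (q - 1) * (b - 1)) ∧
        (q ∣ b - 1 → ¬ Admissible b n))) := by
  refine ⟨fun b n h => ⟨isGreatest_F h, isGreatest_core h.pos⟩, ?_, ?_⟩
  · intro d hd
    obtain ⟨g, hg⟩ := exists_frob hd
    exact ⟨g, hg, fun b n h hdvd => cyc_general h hg hdvd,
      fun b n hb hgb hn => cyc_value hb hg hgb hn⟩
  · intro q k hq
    refine ⟨⟨_, fun b n h hdvd => ⟨growth_lower h hq hdvd, F_le_growth h hq hdvd⟩⟩, ?_⟩
    intro b n hb hn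
    exact ⟨fun hqb => prime_pow_value hb hq hqb hn, fun hqb => not_admissible_prime_pow hb hq hqb hn⟩

end Pool.Agent.Results.MP_d7e141_nt.CyclotomicNumbers
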