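import Pool.Agent.Lib.MP_d7e141_nt.GenFinal

/-!
# MP_d7e141_nt, Q1: the value for generic pairs

`Out b n`, `F b n`, `Admissible b n`, `core b n` (the largest divisor of `n` coprime to `b`) are
defined in `Pool.Agent.Lib.MP_d7e141_nt.Defs`.
-/

namespace Pool.Agent.Results.MP_d7e141_nt.GenericPairs

open Pool.Agent.MPd7e141 Finset

theorem result :
    -- the numbers used in the statements are what they should be
    (∀ b n : ℕ, Admissible b n →
      IsGreatest {u : ℕ | 0 < u ∧ u ∉ Out b n} (F b n) ∧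
      IsGreatest {m : ℕ | m ∣ n ∧ Nat.Coprime b m} (core b n)) ∧
    -- upper bound for large orders
    (∀ b n k : ℕ, Admissible b n → 2 ≤ k →
      ∑ t ∈ (core b n).divisors.erase 1, ((t : ℝ) - orderOf (b : ZMod t)) ^ ((k : ℝ) / 2) /
        (orderOf (b : ZMod t) : ℝ) ^ (k - 1) < 1 → F b n ≤ k - 1) ∧
    -- exact value
    (∀ b n : ℕ, Admissible b n →
      ∑ t ∈ (core b n).divisors.erase 1, ((t : ℝ) - orderOf (b : ZMod t)) ^ (3 / 2 : ℝ) /
        (orderOf (b : ZMod t) : ℝ) ^ 2 < 1 →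
      ((∃ j : ℕ, core b n ∣ b ^ j + 1) → F b n = 1) ∧
        ((¬ ∃ j : ℕ, core b n ∣ b ^ j + 1) → F b n = 2)) ∧
    -- prime core
    (∀ b n : ℕ, Admissible b n → (core b n).Prime →
      (core b n - orderOf (b : ZMod (core b n))) ^ 3 < orderOf (b : ZMod (core b n)) ^ 4 →
      ((∃ j : ℕ, core b n ∣ b ^ j + 1) → F b n = 1) ∧
        ((¬ ∃ j : ℕ, core b n ∣ b ^ j + 1) → F b n = 2)) ∧
    -- few residues violate the condition
    (∀ p : ℕ, p.Prime →
      (((range p).filter fun b : ℕ => 0 < b ∧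
        ¬ (p - orderOf (b : ZMod p)) ^ 3 < orderOf (b : ZMod p) ^ 4).card : ℝ) ≤
      ((p - 1).divisors.card : ℝ) * (p : ℝ) ^ (3 / 4 : ℝ)) :=
  ⟨fun _ _ h => ⟨isGreatest_F h, isGreatest_core h.pos⟩, fun _ _ _ h hk hs => F_generic_k h hk hs,
    fun _ _ h hs => F_generic h hs, fun _ _ h hp hs => F_generic_prime h hp hs,
    fun _ hp => count_exceptions hp⟩

end Pool.Agent.Results.MP_d7e141_nt.GenericPairs
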