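import Pool.Agent.Lib.MP_d7e141_nt.QuadFinal

/-!
# MP_d7e141_nt, Q1 for all pairs with `n' ∣ Φ_k(b)`, `k ∈ {2, 3, 4, 6}`

`Out b n`, `F b n`, `Admissible b n`, `core b n` (the largest divisor of `n` coprime to `b`) are
defined in `Pool.Agent.Lib.MP_d7e141_nt.Defs`.
-/

namespace Pool.Agent.Results.MP_d7e141_nt.QuadraticOrders

open Pool.Agent.MPd7e141

theorem result : ∀ b n : ℕ, Admissible b n →
    -- the numbers used in the statement are what they should be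
    (IsGreatest {u : ℕ | 0 < u ∧ u ∉ Out b n} (F b n) ∧
      IsGreatest {m : ℕ | m ∣ n ∧ Nat.Coprime b m} (core b n)) ∧
    -- `k = 2`
    (core b n ∣ b + 1 → F b n = core b n - 2) ∧
    -- `k = 3`
    (core b n ∣ b ^ 2 + b + 1 →
      (∃! p : ℕ × ℕ, 0 < p.1 ∧ 0 < p.2 ∧ p.1 ^ 2 + p.1 * p.2 + p.2 ^ 2 = core b n ∧
        p.1 ≡ b * p.2 [MOD core b n]) ∧
      ∀ x y : ℕ, 0 < x → 0 < y → x ^ 2 + x * y + y ^ 2 = core b n →
        x ≡ b * y [MOD core b n] → F b n = x + y + max x y - 3) ∧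
    -- `k = 4`
    (core b n ∣ b ^ 2 + 1 →
      (∃! p : ℕ × ℕ, 0 < p.1 ∧ 0 < p.2 ∧ p.1 ^ 2 + p.2 ^ 2 = core b n ∧
        p.1 ≡ b * p.2 [MOD core b n]) ∧
      ∀ x y : ℕ, 0 < x → 0 < y → x ^ 2 + y ^ 2 = core b n →
        x ≡ b * y [MOD core b n] → F b n = x + y - 2) ∧
    -- `k = 6`
    (core b n ∣ b ^ 2 - b + 1 → F b n = 1) := by
  intro b n h
  exact ⟨⟨isGreatest_F h, isGreatest_core h.pos⟩, (F_le_core_sub_two h).2.2, F_order_three h,
    F_order_four h, F_order_six h⟩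

end Pool.Agent.Results.MP_d7e141_nt.QuadraticOrders
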