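import Pool.Agent.Lib.MP_d7e141_nt.UpperB

/-!
# MP_d7e141_nt, Q1: sharp upper bounds and the pairs attaining them

`Out b n`, `F b n`, `Admissible b n`, `core b n` (the largest divisor of `n` coprime to `b`) are
defined in `Pool.Agent.Lib.MP_d7e141_nt.Defs`.
-/

namespace Pool.Agent.Results.MP_d7e141_nt.SharpUpperBound

open Pool.Agent.MPd7e141

theorem result : ∀ b n : ℕ, Admissible b n →
    (IsGreatest {u : ℕ | 0 < u ∧ u ∉ Out b n} (F b n) ∧
      IsGreatest {m : ℕ | m ∣ n ∧ Nat.Coprime b m} (core b n)) ∧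
    (F b n ≤ core b n - 2 ∧ (F b n = core b n - 2 ↔ core b n ∣ b + 1)) ∧
    (F b n ≤ (orderOf (b : ZMod (core b n)) - 1) * (b - 1) ∧
      (F b n = (orderOf (b : ZMod (core b n)) - 1) * (b - 1) ↔
        core b n = (b ^ orderOf (b : ZMod (core b n)) - 1) / (b - 1))) := by
  intro b n h
  exact ⟨⟨isGreatest_F h, isGreatest_core h.pos⟩, F_le_core_sub_two h, F_le_ord h⟩

end Pool.Agent.Results.MP_d7e141_nt.SharpUpperBound
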